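import Mathlib
import Pool.Agent.W530.Carnot.Dist
import Pool.Agent.W530.Carnot.Fin

/-!
# A biLipschitz self-map of a Carnot group without Heisenberg factor that does not permute the
# left cosets of the second term of the lower central series

The group `N` consists of the upper unitriangular matrices of size three over the dual numbers
`R[e]`, `e ^ 2 = 0`: it is the tangent group of the Heisenberg group. In the coordinates
`(x, y, z, a, b, c)` the product of two elements is
`(x + x', y + y', z + z' + x y', a + a', b + b', c + c' + x b' + a y')`.

For a smooth function `f(x, y, z)` with compact support let `W` be the contact vector field of the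
Heisenberg group with the contact Hamiltonian `f`. The map `F(p, v) = (p, v + W(p))` of the tangent
group is a smooth bijection; it maps horizontal curves to horizontal curves, and since the
horizontal derivatives of the horizontal components of `W` are bounded, it is biLipschitz for every
Carnot distance. The horizontal components of `W` vary along the left cosets of the centre, so that
`F` does not permute these cosets.
-/

open scoped Manifold ContDiff ENNReal NNReal

namespace Pool.Agent.Results.MP_b4a25c_gt.DualHeisenberg

open Pool.Agent.W530.Carnot

/-- `N` is a simply connected Lie group, its Lie algebra is stratified of step two (so that `N` is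
a Carnot group), it has no Heisenberg direct factor, any two points are at finite Carnot distance,
and there is a bijection `F` of `N` which is biLipschitz for all Carnot distances of `N` and does
not permute the left cosets of the second term of the lower central series of `N` (its number is
`1` in the numbering of Mathlib, which starts at zero). -/
theorem result :
    LieGroup 𝓘(ℝ, E) ∞ N ∧ SimplyConnectedSpace N ∧
    IsStratification (L := GroupLieAlgebra 𝓘(ℝ, E) N) 2 N.stratL ∧
    (∀ n : ℕ, 1 ≤ n → ∀ (K : Type) [Group K], IsEmpty (N ≃* Heis n × K)) ∧
    (∀ (ν : E → ℝ) (x y : N), ccEDist (N.strat 1 : Set E) ν x y ≠ ⊤) ∧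
    ∃ F : N → N, Function.Bijective F ∧
      (∀ ν : E → ℝ, IsNormOn (N.strat 1) ν →
        IsBiLipschitz (ccEDist (G := N) (N.strat 1 : Set E) ν) F) ∧
      ¬ PermutesLeftCosets F ((⊤ : Subgroup N).lowerCentralSeries 1) := by
  have hsc : SimplyConnectedSpace N := inferInstanceAs (SimplyConnectedSpace E)
  obtain ⟨f, hf, hc, h0⟩ := exists_bump
  exact ⟨inferInstance, hsc, N.isStratification, fun n hn K _ => N.no_heisenberg n hn K,
    ccEDist_ne_top, Fmap f, bijective_F, fun ν hν => biLipschitz_F hf hc hν,
    not_permutes hf hc h0⟩

end Pool.Agent.Results.MP_b4a25c_gt.DualHeisenberg
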